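import Pool.Agent.H93.SC.Targets

/-!
Generic complete intersections: choice of pivots, existence, uniqueness, the index (MP_f2954d_ag).
-/

open Set

namespace Pool.Agent.H80.SCG
open SC

section Alg

variable {K L : Type} [Field K] [Field L] [Algebra K L]

theorem isAlgebraic_of_top (s : Set L) (h : IntermediateField.adjoin K s = ⊤) :
    Algebra.IsAlgebraic (Algebra.adjoin K s) L := by
  constructor
  intro x
  have hx : x ∈ IntermediateField.adjoin K s := h ▸ IntermediateField.mem_top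
  obtain ⟨r, hr, t, ht, rfl⟩ := IntermediateField.mem_adjoin_iff_div.mp hx
  have h1 : IsAlgebraic (Algebra.adjoin K s) r :=
    isAlgebraic_algebraMap (⟨r, hr⟩ : Algebra.adjoin K s)
  have h2 : IsAlgebraic (Algebra.adjoin K s) t :=
    isAlgebraic_algebraMap (⟨t, ht⟩ : Algebra.adjoin K s)
  rw [div_eq_mul_inv]
  exact h1.mul h2.inv

/-- the isomorphism between two fields generated by algebraically independent families -/
theorem exists_equiv_of_indep {L' ι : Type} [Field L'] [Algebra K L'] {x : ι → L} {x' : ι → L'}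
    (hx : AlgebraicIndependent K x) (hx' : AlgebraicIndependent K x')
    (ht : IntermediateField.adjoin K (range x) = ⊤)
    (ht' : IntermediateField.adjoin K (range x') = ⊤) :
    ∃ e : L ≃ₐ[K] L', ∀ i, e (x i) = x' i := by
  let f : FractionRing (MvPolynomial ι K) ≃ₐ[K] L :=
    hx.aevalEquivField.trans ((IntermediateField.equivOfEq ht).trans IntermediateField.topEquiv)
  let f' : FractionRing (MvPolynomial ι K) ≃ₐ[K] L' :=
    hx'.aevalEquivField.trans ((IntermediateField.equivOfEq ht').trans IntermediateField.topEquiv)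
  have hf : ∀ i, f (algebraMap (MvPolynomial ι K) _ (MvPolynomial.X i)) = x i := by
    intro i
    have := hx.aevalEquivField_algebraMap_apply_coe (MvPolynomial.X (R := K) i)
    rw [MvPolynomial.aeval_X] at this
    exact this
  have hf' : ∀ i, f' (algebraMap (MvPolynomial ι K) _ (MvPolynomial.X i)) = x' i := by
    intro i
    have := hx'.aevalEquivField_algebraMap_apply_coe (MvPolynomial.X (R := K) i)
    rw [MvPolynomial.aeval_X] at this
    exact this
  refine ⟨f.symm.trans f', fun i => ?_⟩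
  rw [AlgEquiv.trans_apply, ← hf i, AlgEquiv.symm_apply_apply, hf' i]

end Alg

section Piv

variable {K J L : Type} [Field K] [Field L] [Algebra K L] {S : J → Sys K} {U : Var S → L}

/-- the pivot variables are combinations of the other ones -/
theorem pivot_eq (i0 : ∀ j, Fin (S j).r) (h0 : ∀ j, (S j).s (i0 j) ≠ 0)
    (hrel : ∀ j, ∑ i, algebraMap K L ((S j).s i) * U ⟨j, i⟩ = 0) (j : J) :
    U ⟨j, i0 j⟩ = (algebraMap K L ((S j).s (i0 j)))⁻¹ *
      (-∑ i ∈ Finset.univ.erase (i0 j), algebraMap K L ((S j).s i) * U ⟨j, i⟩) := by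
  have hne : algebraMap K L ((S j).s (i0 j)) ≠ 0 := by
    simpa using h0 j
  rw [eq_inv_mul_iff_mul_eq₀ hne, eq_neg_iff_add_eq_zero, ← hrel j]
  exact Finset.add_sum_erase _ (fun i => algebraMap K L ((S j).s i) * U ⟨j, i⟩)
    (Finset.mem_univ (i0 j))

theorem adjoin_pivot (i0 : ∀ j, Fin (S j).r) (h0 : ∀ j, (S j).s (i0 j) ≠ 0)
    (hrel : ∀ j, ∑ i, algebraMap K L ((S j).s i) * U ⟨j, i⟩ = 0)
    (hgen : IntermediateField.adjoin K (Set.range U) = ⊤) :
    IntermediateField.adjoin K
      (range fun x : {x : Var S // x.2 ≠ i0 x.1} => U x.1) = ⊤ := by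
  rw [eq_top_iff, ← hgen, IntermediateField.adjoin_le_iff]
  rintro _ ⟨⟨j, i⟩, rfl⟩
  set F := IntermediateField.adjoin K (range fun x : {x : Var S // x.2 ≠ i0 x.1} => U x.1)
  have hother : ∀ i', i' ≠ i0 j → U ⟨j, i'⟩ ∈ F := fun i' hi' =>
    IntermediateField.subset_adjoin _ _ ⟨⟨⟨j, i'⟩, hi'⟩, rfl⟩
  by_cases hi : i = i0 j
  · subst hi
    rw [pivot_eq i0 h0 hrel j]
    refine F.mul_mem (F.inv_mem (F.algebraMap_mem _)) (F.neg_mem (F.sum_mem fun i' hi' => ?_))
    exact F.mul_mem (F.algebraMap_mem _) (hother i' (Finset.ne_of_mem_erase hi'))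
  · exact hother i hi

/-- swapping the pivots -/
noncomputable def swapEquiv (S : J → Sys K) (i0 i1 : ∀ j, Fin (S j).r) :
    {x : Var S // x.2 ≠ i0 x.1} ≃ {x : Var S // x.2 ≠ i1 x.1} :=
  (Equiv.sigmaCongrRight fun j => Equiv.swap (i0 j) (i1 j)).subtypeEquiv (by
    rintro ⟨j, i⟩
    change ¬ (i = i0 j) ↔ ¬ (Equiv.swap (i0 j) (i1 j) i = i1 j)
    rw [not_iff_not]
    constructor
    · intro h
      rw [h, Equiv.swap_apply_left]
    · intro h
      have := congrArg (Equiv.swap (i0 j) (i1 j)) h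
      rwa [Equiv.swap_apply_self, Equiv.swap_apply_right] at this)

theorem indep_swap [Finite J] (i0 i1 : ∀ j, Fin (S j).r)
    (h1 : ∀ j, (S j).s (i1 j) ≠ 0)
    (hrel : ∀ j, ∑ i, algebraMap K L ((S j).s i) * U ⟨j, i⟩ = 0)
    (hgen : IntermediateField.adjoin K (Set.range U) = ⊤)
    (hind : AlgebraicIndependent K (fun x : {x : Var S // x.2 ≠ i0 x.1} => U x.1)) :
    AlgebraicIndependent K (fun x : {x : Var S // x.2 ≠ i1 x.1} => U x.1) := by
  have htop := adjoin_pivot i1 h1 hrel hgen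
  have := isAlgebraic_of_top _ htop
  have : Finite (Var S) := inferInstance
  refine (Algebra.IsAlgebraic.isTranscendenceBasis_of_le_trdeg_of_finite K
    (fun x : {x : Var S // x.2 ≠ i1 x.1} => U x.1) ?_).1
  rw [← Cardinal.mk_congr (swapEquiv S i0 i1)]
  exact hind.cardinalMk_le_trdeg

end Piv

theorem g1c : T_G1c := by
  intro K J L _ _ _ _ S U i0 h0 hrel hind hgen
  exact ⟨hrel, fun i1 h1 => indep_swap i0 i1 h1 hrel hgen hind, hgen⟩

theorem g1b : T_G1b := by
  intro K J L L' _ _ _ _ _ _ S U U' hNz hU hU'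
  choose i0 h0 using hNz
  obtain ⟨e, he⟩ := exists_equiv_of_indep (hU.indep i0 h0) (hU'.indep i0 h0)
    (adjoin_pivot i0 h0 hU.rel hU.gen) (adjoin_pivot i0 h0 hU'.rel hU'.gen)
  have he2 : ∀ j i, i ≠ i0 j → e (U ⟨j, i⟩) = U' ⟨j, i⟩ := fun j i hi => he ⟨⟨j, i⟩, hi⟩
  refine ⟨e, ?_⟩
  rintro ⟨j, i⟩
  by_cases hi : i = i0 j
  · subst hi
    rw [pivot_eq i0 h0 hU.rel j, pivot_eq i0 h0 hU'.rel j, map_mul, map_inv₀, map_neg, map_sum,
      AlgEquiv.commutes]
    congr 2
    refine Finset.sum_congr rfl fun i' hi' => ?_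
    rw [map_mul, AlgEquiv.commutes, he2 j i' (Finset.ne_of_mem_erase hi')]
  · exact he2 j i hi

section Canon

variable {K J : Type} [Field K] (S : J → Sys K)

theorem genX_indep : AlgebraicIndependent K (genX S) := by
  have h := (MvPolynomial.algebraicIndependent_X {x : Var S // ¬ Pivot S x} K)
  have h2 := h.map' (f := Algebra.algHom K (MvPolynomial {x : Var S // ¬ Pivot S x} K) (Gen S))
    (IsFractionRing.injective (MvPolynomial {x : Var S // ¬ Pivot S x} K) (Gen S))
  exact h2

theorem genX_top : IntermediateField.adjoin K (range (genX S)) = ⊤ := by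
  rw [eq_top_iff]
  intro z _
  obtain ⟨a, b, -, rfl⟩ := IsFractionRing.div_surjective
    (A := MvPolynomial {x : Var S // ¬ Pivot S x} K) z
  set F := IntermediateField.adjoin K (range (genX S))
  have key : ∀ p : MvPolynomial {x : Var S // ¬ Pivot S x} K, algebraMap _ (Gen S) p ∈ F := by
    intro p
    induction p using MvPolynomial.induction_on with
    | C a =>
      have : algebraMap (MvPolynomial {x : Var S // ¬ Pivot S x} K) (Gen S) (MvPolynomial.C a) =
          algebraMap K (Gen S) a := by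
        rw [IsScalarTower.algebraMap_apply K (MvPolynomial {x : Var S // ¬ Pivot S x} K) (Gen S)]
        rfl
      rw [this]
      exact F.algebraMap_mem a
    | add p q hp hq =>
      rw [map_add]
      exact F.add_mem hp hq
    | mul_X p i hp =>
      rw [map_mul]
      exact F.mul_mem hp (IntermediateField.subset_adjoin _ _ ⟨i, rfl⟩)
  exact F.div_mem (key a) (key b)

theorem g1a_aux [Finite J] (hNz : ∀ j, (S j).Nz) : IsGen S (genU S) := by
  classical
  set i0 : ∀ j, Fin (S j).r := fun j => (hNz j).choose with hi0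
  have h0 : ∀ j, (S j).s (i0 j) ≠ 0 := fun j => (hNz j).choose_spec
  have hpiv : ∀ x : Var S, Pivot S x ↔ x.2 = i0 x.1 := by
    intro x
    constructor
    · rintro ⟨h, hx⟩
      exact hx
    · intro hx
      exact ⟨hNz x.1, hx⟩
  refine g1c K J (Gen S) S (genU S) i0 h0 ?_ ?_ ?_
  · intro j
    have hne : algebraMap K (Gen S) ((S j).s (i0 j)) ≠ 0 := by
      simpa using h0 j
    rw [← Fintype.sum_subtype_add_sum_subtype (fun i => Pivot S ⟨j, i⟩)
      (fun i => algebraMap K (Gen S) ((S j).s i) * genU S ⟨j, i⟩)]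
    have e1 : ∑ i : {i // Pivot S ⟨j, i⟩}, algebraMap K (Gen S) ((S j).s i) * genU S ⟨j, i⟩ =
        algebraMap K (Gen S) ((S j).s (i0 j)) * genU S ⟨j, i0 j⟩ := by
      letI : Unique {i // Pivot S ⟨j, i⟩} :=
        { default := ⟨i0 j, (hpiv ⟨j, i0 j⟩).mpr rfl⟩
          uniq := fun i => Subtype.ext ((hpiv ⟨j, i.1⟩).mp i.2) }
      rw [Fintype.sum_unique]
      rfl
    rw [e1]
    have e2 : genU S ⟨j, i0 j⟩ = - ∑ i : {i : Fin (S j).r // ¬ Pivot S ⟨j, i⟩},
        algebraMap K (Gen S) ((S j).s i.1 / (S j).s (i0 j)) * genX S ⟨⟨j, i.1⟩, i.2⟩ := by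
      unfold genU
      rw [dif_pos ((hpiv ⟨j, i0 j⟩).mpr rfl)]
    rw [e2, mul_neg, Finset.mul_sum, neg_add_eq_zero]
    refine Finset.sum_congr rfl fun i _ => ?_
    have e3 : genU S ⟨j, i.1⟩ = genX S ⟨⟨j, i.1⟩, i.2⟩ := by
      unfold genU
      rw [dif_neg i.2]
    rw [e3, map_div₀]
    field_simp
  · have hx := (genX_indep S).comp
      (fun x : {x : Var S // x.2 ≠ i0 x.1} => ⟨x.1, fun h => x.2 ((hpiv x.1).mp h)⟩)
      (fun a b hab => by
        simp only [Subtype.mk.injEq] at hab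
        exact Subtype.ext hab)
    have e : (fun x : {x : Var S // x.2 ≠ i0 x.1} => genU S x.1) = genX S ∘
        (fun x : {x : Var S // x.2 ≠ i0 x.1} => ⟨x.1, fun h => x.2 ((hpiv x.1).mp h)⟩) := by
      funext x
      simp only [Function.comp_apply]
      unfold genU
      rw [dif_neg]
    rw [e]
    exact hx
  · rw [eq_top_iff, ← genX_top S, IntermediateField.adjoin_le_iff]
    rintro _ ⟨x, rfl⟩
    refine IntermediateField.subset_adjoin _ _ ⟨x.1, ?_⟩
    unfold genU
    rw [dif_neg x.2]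

end Canon

theorem g1a : T_G1a := by
  intro K J _ _ S hNz
  exact g1a_aux S hNz

end Pool.Agent.H80.SCG
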