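import Pool.Agent.H80.SC.G1

/-!
The index can be computed from any generic complete intersection; the Gauss property depends
only on the order function (MP_f2954d_ag).
-/

open Set

namespace Pool.Agent.H80.SCG
open SC

/-- degrees are transported by isomorphisms -/
theorem finrank_kU {k A B V : Type} [Field k] [Field A] [Field B] [Algebra k A] [Algebra k B]
    (e : A ≃ₐ[k] B) (x : V → A) (y : V → B) (h : ∀ i, e (x i) = y i) :
    Module.finrank (kU k x) A = Module.finrank (kU k y) B := by
  have hmap : (kU k x).map e.toAlgHom = kU k y := by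
    unfold kU
    rw [IntermediateField.adjoin_map, ← Set.range_comp]
    congr 2
    funext i
    exact h i
  rw [← hmap]
  refine Algebra.finrank_eq_of_equiv_equiv
    ((IntermediateField.intermediateFieldMap e (kU k x)).toRingEquiv) e.toRingEquiv ?_
  ext z
  rfl

/-- algebraic independence is transported by isomorphisms -/
theorem indep_iff {k A B V : Type} [Field k] [Field A] [Field B] [Algebra k A] [Algebra k B]
    (e : A ≃ₐ[k] B) (x : V → A) (y : V → B) (h : ∀ i, e (x i) = y i) :
    AlgebraicIndependent k x ↔ AlgebraicIndependent k y := by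
  have hy : y = e.toAlgHom ∘ x := by
    funext i
    exact (h i).symm
  rw [hy]
  exact (AlgHom.algebraicIndependent_iff e.toAlgHom e.injective).symm

theorem g2 : T_G2 := by
  intro k K J L _ _ _ _ _ _ _ _ S U hNz hU
  obtain ⟨e, he⟩ := g1b K J (Gen S) L S (genU S) U hNz (g1a K J S hNz) hU
  let e' : Gen S ≃ₐ[k] L := e.restrictScalars k
  have he' : ∀ x, e' (genU S x) = U x := he
  unfold Idx
  rw [← finrank_kU e' (genU S) U he', ← indep_iff e' (genU S) U he']
  constructor
  · intro h
    rw [if_pos h]
  · intro h
    rw [if_neg h]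

theorem g4t : T_G4t := by
  intro k K k' k'' L J _ _ _ _ _ _ _ _ _ v w w' S U hord h
  obtain ⟨ord, a1, a2, a3, a4, a5⟩ := w
  obtain ⟨ord', b1, b2, b3, b4, b5⟩ := w'
  simp only at hord
  subst hord
  exact ⟨h.ordK, h.nonneg, h.gen⟩

end Pool.Agent.H80.SCG
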